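import Mathlib
import Pool.Agent.K1H46.UD.Gen

set_option autoImplicit false

/-!
# Furstenberg's orbit closure conjecture: all irrational numbers, Liouville numbers included

No irrational number, Liouville or not, has linear block complexity in two multiplicatively
independent bases. This follows from a local theorem with uniform heights: at every large scale `n`
at which a number has at most `C n` blocks in both bases, it is at a distance of at most `exp(-E n)`
from a fraction whose denominator is at most `exp(H n)`, where `H` depends only on the bases and on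
`C`, not on the number and not on `E`.
-/

namespace Pool.Agent.Results.MP_c9a594_an.AllIrrationals

/-- the number of different blocks of length `n` in the sequence `w` -/
noncomputable def complexity {α : Type} (w : ℕ → α) (n : ℕ) : ℕ :=
  (Set.range fun i => fun j : Fin n => w (i + j)).ncard

/-- the digit of index `n + 1` after the point in the base `b` expansion of `x` -/
noncomputable def digit (b : ℕ) (x : ℝ) (n : ℕ) : ℤ := ⌊x * (b : ℝ) ^ (n + 1)⌋ % (b : ℤ)

/-- `a` and `b` are multiplicatively independent -/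
def Indep (a b : ℕ) : Prop := ∀ k l : ℕ, a ^ k = b ^ l → k = 0 ∧ l = 0

/-- the closure of the orbit of `x` under `y ↦ b y mod 1` -/
def orb (b : ℕ) (x : ℝ) : Set ℝ := closure (Set.range fun n : ℕ => Int.fract ((b : ℝ) ^ n * x))

/-- `X` is contained in the union of at most `K` closed intervals of length `ε` -/
def Cover (X : Set ℝ) (ε K : ℝ) : Prop :=
  ∃ s : Finset ℝ, (s.card : ℝ) ≤ K ∧ X ⊆ ⋃ c ∈ s, Set.Icc c (c + ε)

/-- the sum of the series `∑ γ(w_0) ⋯ γ(w_{n-1}) c(w_n)`. With `γ(a) = 1 / b` and `c(a) = a / b` this is the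
number in `[0, 1]` with the digits `w_0, w_1, …` in base `b`. -/
noncomputable def value {A : Type} (γ c : A → ℚ) (w : ℕ → A) : ℝ :=
  ∑' n, (∏ k ∈ Finset.range n, (γ (w k) : ℝ)) * (c (w n) : ℝ)

/-- the sums of the series `∑ γ(w_0) ⋯ γ(w_{n-1}) c(w_n)`, where the `w_n` are in a finite set `A`,
`γ(a)` and `c(a)` are rational, `|γ(a)| < 1`, `|γ(a)|` is in the group `Γ` and the sequence `w` has at
most `C n` different blocks of length `n`, for all `n ≥ 1` (`C` is arbitrary). -/
def Series (Γ : Subgroup ℚˣ) : Set ℝ :=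
  {x | ∃ (A : Type) (_ : Finite A) (γ c : A → ℚ) (w : ℕ → A) (C : ℝ),
    (∀ a, ∃ u ∈ Γ, |γ a| = ((u : ℚˣ) : ℚ)) ∧ (∀ a, |γ a| < 1) ∧
    HasSum (fun n => (∏ k ∈ Finset.range n, (γ (w k) : ℝ)) * (c (w n) : ℝ)) x ∧
    ∀ n, 1 ≤ n → (complexity w n : ℝ) ≤ C * n}

lemma series_gen (Γ : Subgroup ℚˣ) :
    Series Γ = {x | Pool.Agent.TH796.AL.Grp.Gen {n | 1 ≤ n} Γ x} := rfl

/-- (1) Let `a, b ≥ 2` be multiplicatively independent and `x` any irrational number. For every `C`
there are arbitrarily large `n` such that `x` has more than `C n` different blocks of `n` digits in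
base `a`, or in base `b`. (2) Equivalently, there are arbitrarily small `ε` such that the closure of
the orbit of `x` under the multiplication by `a` modulo one is not covered by `C log(1/ε)` intervals
of length `ε`, or such that this holds for the multiplication by `b`.

This is a consequence of the following theorems, in which `C` is arbitrary.

(3) There is `H`, which depends only on `a`, `b` and `C`, such that for every real number `x`, every
`E` and all `n ≥ n₀(x, E)`: `x` has more than `C n` blocks of `n` digits in base `a`, or in base `b`, or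
there is a fraction `q` with denominator at most `exp(H n)` and `|x - q| ≤ exp(-E n)`.

(4) The general form. Let `Γ_1, …, Γ_r` be groups of rational numbers with `Γ_i ∩ Γ_j = 1` for
`i ≠ j`, let `γ_ij` and `c_ij` be rational functions on finite sets `A_ij`, with `|γ_ij| < 1` and
`|γ_ij|` in `Γ_i`, let `P_i` be polynomials with rational coefficients and `α_i ≠ 0` and `β` algebraic
numbers. There is `H` such that for all words `w_ij`, for `y_i = P_i(value of w_i1, w_i2, …)` with
`∑ α_i y_i = β`, every `E` and all large `n`: some `w_ij` has more than `C n` blocks of length `n`, or for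
every `i` there is a fraction `q` with denominator at most `exp(H n)` and `|y_i - q| ≤ exp(-E n)`.

(5) In particular let `y_i` be in the ring generated over `ℚ` by `Series Γ_i` and let `∑ α_i y_i` be
algebraic. Then all the `y_i` are rational. (For `r = 2` and `α = (1, -1)`: the rings generated by
`Series Γ` and `Series Δ` have only the rational numbers in common if `Γ ∩ Δ = 1`.) -/
theorem result :
    (∀ a b : ℕ, 2 ≤ a → 2 ≤ b → Indep a b → ∀ x : ℝ, Irrational x → ∀ (C : ℝ) (n₀ : ℕ),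
      ∃ n ≥ n₀, C * n < complexity (digit a x) n ∨ C * n < complexity (digit b x) n) ∧
    (∀ a b : ℕ, 2 ≤ a → 2 ≤ b → Indep a b → ∀ x : ℝ, Irrational x → ∀ C ε₀ : ℝ, 0 < ε₀ →
      ∃ ε : ℝ, 0 < ε ∧ ε < ε₀ ∧ (¬ Cover (orb a x) ε (C * Real.log (1 / ε)) ∨
        ¬ Cover (orb b x) ε (C * Real.log (1 / ε)))) ∧
    (∀ a b : ℕ, 2 ≤ a → 2 ≤ b → Indep a b → ∀ C : ℝ, ∃ H : ℝ, ∀ x E : ℝ, ∃ n₀ : ℕ, ∀ n ≥ n₀,
      C * n < complexity (digit a x) n ∨ C * n < complexity (digit b x) n ∨
        ∃ q : ℚ, (q.den : ℝ) ≤ Real.exp (H * n) ∧ |x - q| ≤ Real.exp (-(E * n))) ∧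
    (∀ (r k : ℕ) (Γ : Fin r → Subgroup ℚˣ), (∀ i j, i ≠ j → Γ i ⊓ Γ j = ⊥) →
      ∀ A : Fin r → Fin k → Type, (∀ i j, Finite (A i j)) → ∀ γ c : ∀ i j, A i j → ℚ,
      (∀ i j a, |γ i j a| < 1 ∧ ∃ u ∈ Γ i, |γ i j a| = ((u : ℚˣ) : ℚ)) →
      ∀ (P : Fin r → MvPolynomial (Fin k) ℚ) (α : Fin r → ℝ) (β : ℝ),
      (∀ i, IsAlgebraic ℚ (α i) ∧ α i ≠ 0) → IsAlgebraic ℚ β → ∀ C : ℝ, ∃ H : ℝ,
      ∀ (w : ∀ i j, ℕ → A i j) (y : Fin r → ℝ),
      (∀ i, y i = MvPolynomial.aeval (fun j => value (γ i j) (c i j) (w i j)) (P i)) →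
      ∑ i, α i * y i = β → ∀ E : ℝ, ∃ n₀ : ℕ, ∀ n ≥ n₀,
        (∃ i j, C * n < complexity (w i j) n) ∨
          ∀ i, ∃ q : ℚ, (q.den : ℝ) ≤ Real.exp (H * n) ∧ |y i - q| ≤ Real.exp (-(E * n))) ∧
    (∀ (r : ℕ) (Γ : Fin r → Subgroup ℚˣ), (∀ i j, i ≠ j → Γ i ⊓ Γ j = ⊥) → ∀ y α : Fin r → ℝ,
      (∀ i, y i ∈ Algebra.adjoin ℚ (Series (Γ i))) → (∀ i, IsAlgebraic ℚ (α i) ∧ α i ≠ 0) →
      IsAlgebraic ℚ (∑ i, α i * y i) → ∀ i, ¬ Irrational (y i)) := by
  refine ⟨fun a b ha hb hab x hx C n₀ => Pool.Agent.K1H46.UD.two ha hb hab hx C n₀,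
    fun a b ha hb hab x hx C ε₀ hε => ?_,
    fun a b ha hb hab C => Pool.Agent.K1H46.UD.two_approx ha hb hab C,
    fun r k Γ hΓ A hA γ c hγ P α β hα hβ C => Pool.Agent.K1H46.UD.general r k Γ hΓ A hA γ c hγ P α β
      hα hβ C, fun r Γ hΓ y α hy hα hsum i => ?_⟩
  · obtain ⟨ε, h1, h2, h3⟩ := Pool.Agent.K1H46.UD.cover ha hb hab hx C ε₀ hε
    refine ⟨ε, h1, h2, ?_⟩
    rcases h3 with h3 | h3
    · left
      rintro ⟨s, hs, hcov⟩
      exact h3 s hs (subset_closure.trans hcov)
    · right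
      rintro ⟨s, hs, hcov⟩
      exact h3 s hs (subset_closure.trans hcov)
  · simp only [series_gen] at hy
    exact Pool.Agent.K1H46.UD.sums hΓ ⟨1, 1, fun n hn => ⟨n, hn, le_rfl, by rw [one_mul]⟩⟩ y hy α
      (fun i => (hα i).1) hsum i (hα i).2

end Pool.Agent.Results.MP_c9a594_an.AllIrrationals
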