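import Mathlib
import Pool.Agent.K1H67.CO.Space

/-!
# Furstenberg's orbit closure conjecture: countably many exceptions in every coset

Let `a ≥ 2`, let `N j` tend to infinity and let `G = LongRuns a N` be the set of the real numbers `z`
whose expansion in base `a` has, for some `ρ > 0` and all large `j`, a periodic run from the place
`N j` to the place `a ^ (ρ N j)`, with a period bounded in terms of `z` (a run of zeros, for
instance), and arbitrary digits between these runs. This is a vector space over `ℚ`. Let `y` be ANY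
real number and `b ≥ 2` coprime to `a`.

1. If `x 0, …, x r` are in the coset `y + G` and `1, x 1 - x 0, …, x r - x 0` are linearly independent
over `ℚ`, then the sum of the `r + 1` codimensions `1 - dim O_b(x i)` is at most one. This is sharp:
for all real `z 0, …, z r` there is `y` such that the `r + 1` dimensions for `y + z 0, …, y + z r` are
at most `r / (r + 1)` (part 5).
2. So all but countably many `x` in `y + G` satisfy `dim O_b(x) = 1` for all `b` coprime to `a`, and
Furstenberg's inequality, whatever the other orbit closure is.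
3. A case without exceptions: if `dim O_b(y) ≤ dim O_a(y)` then `y + z` satisfies Furstenberg's
inequality for all irrational `z` in `G` with `dim O_a(z) = 0`.
4. Let `n (k + 1) ≥ a ^ (ρ n k)`. Change `y` at the places `n k` by integers `d k` of a finite set. For
all but countably many sequences `d` the orbit closure of the new number has dimension one for all
`b` such that some prime divides `a` and not `b`; for all `d` the dimension of the orbit closure
under multiplication by `a` does not change. If it is zero, the theorem of Shmerkin and Wu gives no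
information about these numbers.

Proof. 1: the vectors of elements of `G` are so close to fractions with denominators `Q a ^ (N j)`
that, by Weyl's inequality for short orbits of such fractions (starting file `R501/FR2.lean`), the
Weyl sums over the times from `N j` to `N j + a ^ (ρ N j / 2)` tend to zero for all nonzero integer
combinations: these are irrational, so the denominators of their approximations are unbounded. So the
orbit of `(x 1 - x 0, …, x r - x 0)` is dense in the torus. By Furstenberg's equality of the Hausdorff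
and box dimensions of orbit closures (proved here from a finite cover) it now suffices to count
blocks of digits: the blocks of `x 0, …, x r` at the same places determine, up to `2 ^ r`
possibilities, arbitrary blocks of the differences. 2: a set of real numbers without `r + 1`
independent elements is countable. 5: the digits of `y` are chosen such that every place of the
expansion of one of the `y + z i` in turn is zero.
-/

set_option autoImplicit false

open Filter Topology Set
open scoped ENNReal

namespace Pool.Agent.Results.MP_c9a594_an.CosetsOfLongRuns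

/-- the closure of the orbit of `x` modulo one under multiplication by `m` -/
def O (m : ℕ) (x : ℝ) : Set ℝ := closure (range fun i : ℕ => Int.fract ((m : ℝ) ^ i * x))

/-- the numbers with long periodic runs after the places `N j` in base `a`: there are an integer
`Q ≥ 1` and `ρ > 0` such that, for all large `j`, the number `Q a ^ (N j) z` is at a distance of at
most `exp(-a ^ (ρ N j))` from an integer -/
def LongRuns (a : ℕ) (N : ℕ → ℕ) : Set ℝ := {z | ∃ (Q : ℕ) (ρ : ℝ), 1 ≤ Q ∧ 0 < ρ ∧
  ∀ᶠ j in atTop, ∃ A : ℤ, |(Q : ℝ) * (a : ℝ) ^ N j * z - A| ≤ Real.exp (-(a : ℝ) ^ (ρ * N j))}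

/-- `1, x 1 - x 0, …, x r - x 0` are linearly independent over the rational numbers -/
def Indep {r : ℕ} (x : Fin (r + 1) → ℝ) : Prop :=
  LinearIndependent ℚ (Fin.cons 1 (fun i : Fin r => x i.succ - x 0) : Fin (r + 1) → ℝ)

/-- the real number `y`, changed by `d k` at the place `n k` in base `a` -/
noncomputable def num (a : ℕ) (n : ℕ → ℕ) (y : ℝ) (d : ℕ → ℤ) : ℝ :=
  y + ∑' k, (d k : ℝ) / (a : ℝ) ^ n k

/-- some prime divides `a` and does not divide `b` -/
def PrimeOff (a b : ℕ) : Prop := ∃ p : ℕ, p.Prime ∧ p ∣ a ∧ ¬ p ∣ b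

lemma furst {b : ℕ} {x : ℝ} (h : dimH (O b x) = 1) (m : ℕ) : 1 ≤ dimH (O m x) + dimH (O b x) := by
  rw [h]
  exact le_add_self

theorem result (a : ℕ) (ha : 2 ≤ a) :
    -- numbers with long runs after the places `N j`
    (∀ N : ℕ → ℕ, Tendsto N atTop atTop →
      (∃ V : Submodule ℚ ℝ, (V : Set ℝ) = LongRuns a N ∧ (1 : ℝ) ∈ V) ∧
      ∀ y : ℝ,
        -- (1) the inequality for the dimensions in the coset of `y`; one of the points satisfies
        -- Furstenberg's inequality if the sum of the other dimensions is at least one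
        (∀ b : ℕ, 2 ≤ b → Nat.Coprime a b → ∀ (r : ℕ) (x : Fin (r + 1) → ℝ),
          (∀ i, x i - y ∈ LongRuns a N) → Indep x → (r : ℝ≥0∞) ≤ ∑ i, dimH (O b (x i)) ∧
            ∀ m : ℕ, 1 ≤ ∑ i, dimH (O m (x i)) → ∃ i, 1 ≤ dimH (O m (x i)) + dimH (O b (x i))) ∧
        -- (2) countably many exceptions
        (∃ S : Set ℝ, S.Countable ∧ ∀ x : ℝ, x - y ∈ LongRuns a N → x ∉ S →
          ∀ b : ℕ, 2 ≤ b → Nat.Coprime a b → dimH (O b x) = 1 ∧
            ∀ m : ℕ, 1 ≤ dimH (O m x) + dimH (O b x)) ∧
        -- (3) a case without exceptions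
        ∀ b : ℕ, 2 ≤ b → Nat.Coprime a b → ∀ z ∈ LongRuns a N, Irrational z →
          dimH (O b y) + dimH (O a z) ≤ dimH (O a y) →
            1 ≤ dimH (O a (y + z)) + dimH (O b (y + z))) ∧
    -- (4) changes of the digits at very sparse places
    (∀ n : ℕ → ℕ, StrictMono n → ∀ ρ : ℝ, 0 < ρ → (∀ᶠ k in atTop, (a : ℝ) ^ (ρ * n k) ≤ n (k + 1)) →
      ∀ (J : Finset ℤ) (y : ℝ),
        (∀ b : ℕ, 2 ≤ b → PrimeOff a b → ∀ (r : ℕ) (d : Fin (r + 1) → ℕ → ℤ), (∀ i k, d i k ∈ J) →
          (∀ κ : Fin r → ℤ, κ ≠ 0 → ∃ᶠ k in atTop, ∑ i, κ i * (d i.succ k - d 0 k) ≠ 0) →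
            (r : ℝ≥0∞) ≤ ∑ i, dimH (O b (num a n y (d i)))) ∧
        (∃ S : Set (ℕ → ℤ), S.Countable ∧ ∀ d : ℕ → ℤ, (∀ k, d k ∈ J) → d ∉ S →
          ∀ b : ℕ, 2 ≤ b → PrimeOff a b → dimH (O b (num a n y d)) = 1 ∧
            ∀ m : ℕ, 1 ≤ dimH (O m (num a n y d)) + dimH (O b (num a n y d))) ∧
        ∀ d : ℕ → ℤ, (∀ k, d k ∈ J) → dimH (O a (num a n y d)) = dimH (O a y)) ∧
    -- (5) the inequality is sharp
    (∀ b : ℕ, 2 ≤ b → ∀ (r : ℕ) (z : Fin (r + 1) → ℝ), ∃ y : ℝ, ∀ i,
      dimH (O b (y + z i)) ≤ ENNReal.ofReal ((r : ℝ) / (r + 1))) := by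
  refine ⟨fun N hN => ⟨Pool.Agent.K1H67.CO.space ha hN, fun y => ⟨?_, ?_, ?_⟩⟩,
    fun n hn ρ hρ hg J y => ⟨?_, ?_, ?_⟩, fun b hb r z => ?_⟩
  · intro b hb hab r x hx hind
    have h1 := Pool.Agent.K1H67.CO.main_ineq ha hb hab hN y x hx hind
    exact ⟨h1, fun m hm => Pool.Agent.K1H67.CO.exists_good h1 hm⟩
  · refine ⟨_, Pool.Agent.K1H67.CO.coset_countable ha hN y, fun x hx hxS b hb hab => ?_⟩
    have h1 : dimH (O b x) = 1 := by
      by_contra hne
      exact hxS ⟨hx, b, hb, hab, hne⟩
    exact ⟨h1, furst h1⟩
  · exact fun b hb hab z hz hirr h => Pool.Agent.K1H67.CO.no_exception ha hb hab hN hz hirr h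
  · rintro b hb ⟨p, hp, hpa, hpb⟩ r d hd hind
    exact Pool.Agent.K1H67.CO.sparse_ineq ha hb hp hpa hpb hn hρ hg y hd hind
  · refine ⟨_, Pool.Agent.K1H67.CO.sparse_countable ha hn hρ hg J y, fun d hd hdS b hb hpr => ?_⟩
    have h1 : dimH (O b (num a n y d)) = 1 := by
      by_contra hne
      exact hdS ⟨hd, b, hb, hpr, hne⟩
    exact ⟨h1, furst h1⟩
  · intro d hd
    have hgap := Pool.Agent.K1H67.CO.gaps ha hn hρ hg
    have h0 : dimH (O a 0) = 0 := by
      have : O a 0 = {0} := by
        unfold O
        simp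
      rw [this, dimH_singleton]
    have h1 := Pool.Agent.K1H67.SD.orbit_dim ha hn hgap hd 0
    have h2 : dimH (O a (∑' k, (d k : ℝ) / (a : ℝ) ^ n k)) = 0 := by
      refine le_antisymm ?_ bot_le
      rw [zero_add] at h1
      exact h1.trans h0.le
    exact Pool.Agent.K1H67.CO.dimH_add_zero ha y h2
  · exact Pool.Agent.K1H67.CO.sharp hb z

end Pool.Agent.Results.MP_c9a594_an.CosetsOfLongRuns
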