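import Pool.Agent.K1H98.FR.Cnt

/-!
# Furstenberg's orbit closure conjecture for numbers with random runs of digits

The theorem of Shmerkin and Wu gives no information about the numbers `x` whose orbit closure `O_{a,x}`
has dimension zero, and the metric results on invariant measures give none if `O_{a,x}` is countable.
We show that among such numbers the conjecture is true almost surely, and in the sense of Baire
category, as soon as the lengths of infinitely many runs are free: the orbits of `x` under the
multiplication by `b` are then dense for ALL bases `b` multiplicatively independent of `a`, and the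
inequality of Furstenberg is true for all pairs of bases at the same time.

Proof (`Pool/Agent/K1H98/FR`). `Core.lean`: for every real `c ≠ 0`, all real shifts `s k` and every
target `y`, each window of `K(ε)` consecutive integers `n` contains one such that `s k + b ^ k c / θ ^ n`
is `ε`-close to `y` modulo one for some `k` with `b ^ k |c| / θ ^ n ≤ A(ε)`: there is an interval of
numbers `t` whose first multiples `θ ^ m t` are `ε`-dense modulo one, and the numbers `b ^ k |c|` are in
this interval up to a power of `θ` for a syndetic set of `k` as `log b / log θ` is irrational. So,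
whatever the past is, `b ^ k x` is near `y` for some `k` with a probability bounded from below, in
infinitely many steps (`Main.lean`); `Dil.lean`: insertion of zeros; `Cnt.lean`: countable closures.
-/

set_option autoImplicit false

open MeasureTheory ProbabilityTheory Filter Topology Set Pool.Agent.K1H98.FR

namespace Pool.Agent.Results.MP_c9a594_an.RandomRuns

/-- `Good θ x`: for all integers `b ≥ 2` such that `θ ^ k ≠ b ^ l` for all `k, l > 0` the orbit closure
`orb b x` is `[0, 1]`, and `1 ≤ dimH (orb b x) + dimH (orb c x)` for all multiplicatively independent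
integers `b, c ≥ 2`.

(1) Let `θ > 1` be real, `x` a random real number, `ℱ` a filtration, `X i` and `C i` random real numbers
which are `ℱ i`-measurable and `n i` random integers which are `ℱ (i + 1)`-measurable. Suppose that for
every `K` there are infinitely many `i` such that (`Spread`) `C i ≠ 0`, `x = X i + C i / θ ^ n i` up to an
error of at most `|C i| / θ ^ n i / K`, and there is a window of `L ≥ K` consecutive integers, all
`m` in it with `|C i| ≤ θ ^ m`, such that for each `m` in the window, given `ℱ i`, `n i = m` has
conditional probability at least `κ / L`. Then almost surely `Good θ x`.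

(2) Let `0.d 0 d 1 d 2 …` be any expansion in base `a` with infinitely many nonzero digits and insert
`l i` zeros before the digit `d (p i)`, where `p 0 < p 1 < …` are any places, for all `i`; the new number is
`dil a d p l`. Let the `l i` be independent random integers, `l i ≥ g i → ∞`, such that `l i = m` has
probability at least `κ / L i` for `g i ≤ m < g i + L i`, `L i → ∞` (the growth may be arbitrarily slow).
Then almost surely `Good a (dil a d p l)`.

(3) Let `g i` be arbitrary. For all sequences `m` outside a meagre subset of `ℕ ^ ℕ`, for `l = g + m`,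
`Good a (dil a d p l)`.

(4) If the zeros are inserted before every digit (`p i = i`) and `l i → ∞`, as in (2), and as in (3) if
`g i → ∞`, the orbit closure for the base `a` is countable and has dimension zero. -/
theorem result :
    (∀ (Ω : Type) (m0 : MeasurableSpace Ω) (P : Measure Ω) (_ : IsProbabilityMeasure P)
      (ℱ : Filtration ℕ m0) (θ κ : ℝ) (X C : ℕ → Ω → ℝ) (n : ℕ → Ω → ℕ) (x : Ω → ℝ),
      1 < θ → 0 < κ → (∀ i, Measurable[ℱ i] (X i)) → (∀ i, Measurable[ℱ i] (C i)) →
      (∀ i, Measurable[ℱ (i + 1)] (n i)) →
      (∀ K : ℕ, ∃ᶠ i in atTop, Spread θ κ P ℱ X C n x K i) → ∀ᵐ ω ∂P, Good θ (x ω)) ∧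
    ∀ (a : ℕ) (d : ℕ → ℕ), 2 ≤ a → (∀ j, d j < a) → (∀ N, ∃ j, N ≤ j ∧ d j ≠ 0) →
      (∀ (p : ℕ → ℕ), StrictMono p →
        (∀ (Ω : Type) (m0 : MeasurableSpace Ω) (P : Measure Ω) (_ : IsProbabilityMeasure P)
          (l : ℕ → Ω → ℕ) (g L : ℕ → ℕ) (κ : ℝ), (∀ i, Measurable (l i)) → iIndepFun l P →
          Tendsto g atTop atTop → Tendsto L atTop atTop → (∀ i ω, g i ≤ l i ω) → 0 < κ →
          (∀ i m, g i ≤ m → m < g i + L i → κ / L i ≤ P.real {ω | l i ω = m}) →
          ∀ᵐ ω ∂P, Good a (dil a d p fun i => l i ω)) ∧
        (∀ g : ℕ → ℕ, ∀ᶠ m : ℕ → ℕ in residual (ℕ → ℕ), Good a (dil a d p fun i => g i + m i))) ∧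
      (∀ l : ℕ → ℕ, Tendsto l atTop atTop →
        (orb a (dil a d id l)).Countable ∧ dimH (orb a (dil a d id l)) = 0) := by
  refine ⟨fun Ω m0 P _ ℱ θ κ X C n x hθ hκ hX hC hn hS => ae_good hθ hκ hX hC hn hS,
    fun a d ha hd hinf => ⟨fun p hp => ⟨fun Ω m0 P _ l g L κ hl hind hg hL hlg hκ hprob =>
      ae_dil ha hd hinf hp hl hind hg hL hlg hκ hprob, fun g => residual_dil ha hd hinf hp g⟩,
    fun l hl => ?_⟩⟩
  have h := orb_countable ha hd hl
  exact ⟨h, h.dimH_zero⟩

end Pool.Agent.Results.MP_c9a594_an.RandomRuns
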