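import Mathlib
import Pool.Agent.K1H67.SD.Main

/-!
# Furstenberg's orbit closure conjecture: arbitrarily sparse random changes of the digits

Let `a ≥ 2`, let `y` be ANY real number and let `n 0 < n 1 < …` be ANY infinite sequence of places
(arbitrarily sparse). Change `y` at these places by bounded integers `D k`:
`x = y + ∑ D k / a ^ (n k)`.

1. Let the `D k` be independent random variables, none of whose values has probability more than
`1 - δ k`, and let the sum of the `δ k` diverge. (If it converges, then by the Borel-Cantelli lemma
almost surely all but finitely many of the changes are deterministic.) There is one sequence of times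
`N j` such that almost surely for ALL `b ≥ 2` for which some prime divides `a` and not `b` (all `b`
coprime to `a`, for instance) the orbit of `x` under multiplication by `b` is equidistributed along
the times `N j`; so it is dense, and `x` satisfies Furstenberg's inequality, whatever the orbit
closure under multiplication by `a` is.
2. The same density holds for all sequences `D` in a residual subset of any product of sets of
integers with at least two elements each.
3. If the gaps `n (k + 1) - n k` tend to infinity then for EVERY bounded sequence `D` the orbit closure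
of `x` under multiplication by `a` has at most the dimension of that of `y`; for `y = 0` it has
dimension zero. So the theorem of Shmerkin and Wu gives no information about these `x`.

Proof of 1. The mean square of a Weyl sum is a mean over pairs `(m, m')` of values at
`h (b ^ m - b ^ m')` of the Fourier transform of the law of `x`, an infinite product with the factors
`φ k (h (b ^ m - b ^ m') / a ^ (n k))`. Let `p` divide `a` and not `b`. A suitable shift of `m`, whose
multiples change the `n k`-th argument by multiples of a fraction with denominator `p ^ g` and do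
not change the earlier arguments (modulo one), shows that the mean of the product of the squares
over a period is the product of the numbers `∑_j P (D k = j) ^ 2 ≤ 1 - δ k`, if `k` runs through a
set of indices with `n` increasing by at least `g` from each to the next.

All lemmas are in `Pool/Agent/K1H67/SD/`; only Weyl's criterion for the circle is adapted from the
starting file `Pool/Agent/H493R3/Weyl.lean`.
-/

set_option autoImplicit false

open MeasureTheory ProbabilityTheory Filter Topology Set

namespace Pool.Agent.Results.MP_c9a594_an.SparseRandomDigits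

/-- the closure of the orbit of `x` modulo one under multiplication by `m` -/
def O (m : ℕ) (x : ℝ) : Set ℝ := closure (range fun i : ℕ => Int.fract ((m : ℝ) ^ i * x))

/-- the real number `y`, changed by `d k` at the place `n k` in base `a` -/
noncomputable def num (a : ℕ) (n : ℕ → ℕ) (y : ℝ) (d : ℕ → ℤ) : ℝ :=
  y + ∑' k, (d k : ℝ) / (a : ℝ) ^ n k

/-- some prime divides `a` and does not divide `b` -/
def PrimeOff (a b : ℕ) : Prop := ∃ p : ℕ, p.Prime ∧ p ∣ a ∧ ¬ p ∣ b

/-- the points `x, b x, b² x, …` modulo one are equidistributed along the times `N j`: the means of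
every continuous function on the circle over the first `N j` points tend to its integral -/
def Equidistributed (b : ℕ) (x : ℝ) (N : ℕ → ℕ) : Prop :=
  ∀ f : C(AddCircle (1 : ℝ), ℂ), Tendsto (fun j : ℕ =>
    (∑ m ∈ Finset.range (N j), f (((b : ℝ) ^ m * x : ℝ) : AddCircle (1 : ℝ))) / (N j : ℂ))
    atTop (𝓝 (∫ t : AddCircle (1 : ℝ), f t))

lemma furst {b : ℕ} {x : ℝ} (h : O b x = Icc 0 1) (m : ℕ) : 1 ≤ dimH (O m x) + dimH (O b x) := by
  rw [h, Pool.Agent.K1H67.SD.dimH_Icc]
  exact le_add_self

lemma dense_iff {b : ℕ} {x : ℝ}
    (h : Dense (range fun m : ℕ => (((b : ℝ) ^ m * x : ℝ) : AddCircle (1 : ℝ)))) :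
    O b x = Icc 0 1 :=
  Pool.Agent.K1H67.SD.closure_fract (t := fun m : ℕ => (b : ℝ) ^ m * x) h

/-- a set of numbers whose orbit closure under multiplication by `a` has dimension zero -/
lemma zero_orbit (a : ℕ) : dimH (O a 0) = 0 := by
  have : O a 0 = {0} := by
    unfold O
    simp
  rw [this, dimH_singleton]

theorem result (a : ℕ) (ha : 2 ≤ a) (n : ℕ → ℕ) (hn : StrictMono n) (y : ℝ) (J : Finset ℤ) :
    -- (1) independent random changes in the bounded set `J`
    (∀ (Ω : Type) [MeasurableSpace Ω] (P : Measure Ω) [IsProbabilityMeasure P] (D : ℕ → Ω → ℤ)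
      (δ : ℕ → ℝ), (∀ k, Measurable (D k)) → iIndepFun D P → (∀ k ω, D k ω ∈ J) →
      (∀ k, 0 ≤ δ k) → (∀ (k : ℕ) (j : ℤ), P.real {ω | D k ω = j} ≤ 1 - δ k) → ¬ Summable δ →
      ∃ N : ℕ → ℕ, StrictMono N ∧ ∀ᵐ ω ∂P, ∀ b : ℕ, 2 ≤ b → PrimeOff a b →
        Equidistributed b (num a n y fun k => D k ω) N ∧
        O b (num a n y fun k => D k ω) = Icc 0 1 ∧
        ∀ m : ℕ, 1 ≤ dimH (O m (num a n y fun k => D k ω)) +
          dimH (O b (num a n y fun k => D k ω))) ∧
    -- (2) residual sets of changes
    (∀ E : ℕ → Finset ℤ, (∀ k, E k ⊆ J) → (∀ k, 2 ≤ (E k).card) →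
      {d : ∀ k, E k | ∀ b : ℕ, 2 ≤ b → PrimeOff a b →
        O b (num a n y fun k => d k) = Icc 0 1 ∧
        ∀ m : ℕ, 1 ≤ dimH (O m (num a n y fun k => d k)) +
          dimH (O b (num a n y fun k => d k))} ∈ residual (∀ k, E k)) ∧
    -- (3) distant places: the orbit closure under multiplication by `a` itself
    (Tendsto (fun k => n (k + 1) - n k) atTop atTop → ∀ d : ℕ → ℤ, (∀ k, d k ∈ J) →
      dimH (O a (num a n y d)) ≤ dimH (O a y) ∧ dimH (O a (num a n 0 d)) = 0) := by
  refine ⟨?_, ?_, ?_⟩
  · intro Ω _ P _ D δ hD hind hJ h0 hnd hδ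
    obtain ⟨N, hN, hae⟩ := Pool.Agent.K1H67.SD.main_ae ha hn hD hind hJ h0 hδ hnd y
    refine ⟨N, hN, ?_⟩
    filter_upwards [hae] with ω hω b hb hpr
    have h1 := hω b hb hpr
    have h2 : O b (num a n y fun k => D k ω) = Icc 0 1 := h1.dense
    exact ⟨h1, h2, furst h2⟩
  · intro E hE hE2
    refine Filter.mem_of_superset (Pool.Agent.K1H67.SD.main_res ha hn y hE hE2) fun d hd b hb hpr => ?_
    have h2 : O b (num a n y fun k => d k) = Icc 0 1 := dense_iff (hd b hb hpr)
    exact ⟨h2, furst h2⟩
  · intro hgap d hd
    refine ⟨Pool.Agent.K1H67.SD.orbit_dim ha hn hgap hd y, ?_⟩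
    have h1 := Pool.Agent.K1H67.SD.orbit_dim ha hn hgap hd 0
    have h2 := zero_orbit a
    unfold O at h2
    rw [h2] at h1
    exact le_antisymm h1 bot_le

end Pool.Agent.Results.MP_c9a594_an.SparseRandomDigits
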